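import Pool.Agent.Helper47.FLG.Alg

set_option autoImplicit false

namespace Pool.Agent.Helper88.FLG

open Finset Pool.Agent.Helper47.RFn Pool.Agent.Helper47.FLG

theorem dot_sb {n : ℕ} (i j : Fin n) : dot (sb i) (sb j) = if i = j then 1 else 0 := by
  unfold dot sb
  simp

theorem lin_zero (L c2 c3 c4 : ℝ) (h : ∀ t : ℝ, 0 ≤ t * L + t ^ 2 * c2 + t ^ 3 * c3 + t ^ 4 * c4) :
    L = 0 := by
  by_contra hL
  have hL2 : 0 < |L| := abs_pos.2 hL
  set C : ℝ := |c2| + |c3| + |c4| + 1 with hC
  have hC0 : 0 < C := by positivity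
  set s : ℝ := |L| / (C * (1 + |L|)) with hs
  have hs0 : 0 < s := by positivity
  have hs1 : s ≤ 1 := by
    rw [hs, div_le_one (by positivity)]
    have h1 : 1 ≤ C := by rw [hC]; have := abs_nonneg c2; have := abs_nonneg c3; have := abs_nonneg c4; linarith
    nlinarith
  have hsC : s * C < |L| := by
    rw [hs]
    have : |L| / (C * (1 + |L|)) * C = |L| / (1 + |L|) := by field_simp
    rw [this, div_lt_iff₀ (by positivity)]
    nlinarith
  have key : ∀ t : ℝ, |t| = s → t * L = - (s * |L|) → False := by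
    intro t ht htL
    have h1 := h t
    have ht2 : t ^ 2 = s ^ 2 := by rw [← ht, sq_abs]
    have e2 : t ^ 2 * c2 ≤ s ^ 2 * |c2| := by
      rw [ht2]; exact mul_le_mul_of_nonneg_left (le_abs_self _) (by positivity)
    have e3 : t ^ 3 * c3 ≤ s ^ 2 * |c3| := by
      have : |t ^ 3 * c3| ≤ s ^ 2 * |c3| := by
        rw [abs_mul, abs_pow, ht]
        refine mul_le_mul_of_nonneg_right ?_ (abs_nonneg _)
        calc s ^ 3 = s ^ 2 * s := by ring
          _ ≤ s ^ 2 * 1 := mul_le_mul_of_nonneg_left hs1 (by positivity)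
          _ = s ^ 2 := by ring
      exact le_trans (le_abs_self _) this
    have e4 : t ^ 4 * c4 ≤ s ^ 2 * |c4| := by
      have : |t ^ 4 * c4| ≤ s ^ 2 * |c4| := by
        rw [abs_mul, abs_pow, ht]
        refine mul_le_mul_of_nonneg_right ?_ (abs_nonneg _)
        calc s ^ 4 = s ^ 2 * s ^ 2 := by ring
          _ ≤ s ^ 2 * 1 := mul_le_mul_of_nonneg_left (by nlinarith) (by positivity)
          _ = s ^ 2 := by ring
      exact le_trans (le_abs_self _) this
    have h2 : s * |L| ≤ s ^ 2 * (|c2| + |c3| + |c4|) := by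
      rw [htL] at h1
      nlinarith
    have h3 : s ^ 2 * (|c2| + |c3| + |c4|) ≤ s * (s * C) := by
      rw [hC]
      nlinarith [mul_pos hs0 hs0]
    have h4 : s * (s * C) < s * |L| := mul_lt_mul_of_pos_left hsC hs0
    linarith
  rcases lt_or_gt_of_ne hL with h1 | h1
  · refine key s (abs_of_pos hs0) ?_
    rw [abs_of_neg h1]; ring
  · refine key (-s) (by rw [abs_neg, abs_of_pos hs0]) ?_
    rw [abs_of_pos h1]; ring

theorem g_FO (hR4T : G_R4T) : G_FO := by
  intro n R i0 i1 i2 r hF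
  obtain ⟨hlin, -, -, hK, hKs, -, -, -, hnrm, hsb, -, -, -⟩ := hR4T n
  have hc := hF.fg.1
  have hfl := hF.fg.2
  have hKsb : ∀ p q, K2 R (sb p) (sb q) = R p q p q := by
    intro p q
    rw [hK, hsb]
  have hri : ∀ p, R p i0 p i0 = r p := by
    intro p
    rw [hc.a12, hc.a34, neg_neg, hF.rr]
  have hwd : ∀ p q : Fin n, p ≠ q → wd (sb p) (sb q) = 1 := by
    intro p q hpq
    unfold wd
    rw [hnrm, hnrm, dot_sb, dot_sb, dot_sb, if_pos rfl, if_pos rfl, if_neg hpq]
    ring
  have hrb : ∀ p, p ≠ i0 → 1 ≤ r p ∧ r p ≤ 4 := by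
    intro p hp
    have h1 := hfl (sb i0) (sb i1) (sb p)
    have h2 := hfl (sb i0) (sb p) (sb i2)
    unfold fl at h1 h2
    rw [hKsb, hKsb, hri, hri, hwd _ _ hF.d01.symm, hwd _ _ hp, hF.r1] at h1
    rw [hKsb, hKsb, hri, hri, hwd _ _ hF.d02.symm, hwd _ _ hp, hF.r2] at h2
    constructor <;> linarith
  have main : ∀ q, q ≠ i0 → R i1 i0 i1 q = 4 * R i2 i0 i2 q := by
    intro q hq
    set z : ℝ → Fin n → ℝ := fun t i => 1 * sb i0 i + t * sb q i with hz
    have hKz : ∀ (p : Fin n) (t : ℝ), K2 R (sb p) (z t) =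
        r p + 2 * t * R p i0 p q + t ^ 2 * R p q p q := by
      intro p t
      rw [hK, hz]
      rw [(hlin R (sb i0) (sb q) (sb p) (sb p) (fun i => 1 * sb i0 i + t * sb q i) 1 t).2.1,
        (hlin R (sb i0) (sb q) (sb p) (sb i0) (sb p) 1 t).2.2.2,
        (hlin R (sb i0) (sb q) (sb p) (sb q) (sb p) 1 t).2.2.2, hsb, hsb, hsb, hsb, hri,
        hc.pair p q p i0]
      ring
    have hnz : ∀ t, nrm (z t) = 1 + t ^ 2 := by
      intro t
      have h1 : nrm (z t) = ∑ i, (sb i0 i * sb i0 i + 2 * t * (sb i0 i * sb q i)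
          + t ^ 2 * (sb q i * sb q i)) := by
        unfold nrm
        refine Finset.sum_congr rfl (fun i _ => ?_)
        rw [hz]
        ring
      rw [h1, Finset.sum_add_distrib, Finset.sum_add_distrib, ← Finset.mul_sum, ← Finset.mul_sum]
      have h2 : ∑ i, sb i0 i * sb i0 i = 1 := by
        have := dot_sb i0 i0
        unfold dot at this
        rw [this, if_pos rfl]
      have h3 : ∑ i, sb i0 i * sb q i = 0 := by
        have := dot_sb i0 q
        unfold dot at this
        rw [this, if_neg (Ne.symm hq)]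
      have h4 : ∑ i, sb q i * sb q i = 1 := by
        have := dot_sb q q
        unfold dot at this
        rw [this, if_pos rfl]
      rw [h2, h3, h4]
      ring
    have hdz : ∀ (p : Fin n) (t : ℝ), p ≠ i0 → dot (sb p) (z t) = t * (if p = q then 1 else 0) := by
      intro p t hp
      have h1 : dot (sb p) (z t) = ∑ i, (sb p i * sb i0 i + t * (sb p i * sb q i)) := by
        unfold dot
        refine Finset.sum_congr rfl (fun i _ => ?_)
        rw [hz]
        ring
      rw [h1, Finset.sum_add_distrib, ← Finset.mul_sum]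
      have h2 : ∑ i, sb p i * sb i0 i = 0 := by
        have := dot_sb p i0
        unfold dot at this
        rw [this, if_neg hp]
      have h3 : ∑ i, sb p i * sb q i = if p = q then 1 else 0 := dot_sb p q
      rw [h2, h3]
      ring
    have hwz : ∀ (p : Fin n) (t : ℝ), p ≠ i0 →
        wd (sb p) (z t) = 1 + t ^ 2 * (1 - (if p = q then 1 else 0) ^ 2) := by
      intro p t hp
      unfold wd
      rw [hnz, hdz p t hp, hnrm, dot_sb, if_pos rfl]
      ring
    have h := fun t => hfl (z t) (sb i1) (sb i2)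
    unfold fl at h
    simp only [hKz, hwz i1 _ hF.d01.symm, hwz i2 _ hF.d02.symm, hF.r1, hF.r2] at h
    set d1 : ℝ := 1 - (if i1 = q then (1 : ℝ) else 0) ^ 2 with hd1
    set d2 : ℝ := 1 - (if i2 = q then (1 : ℝ) else 0) ^ 2 with hd2
    have hz0 := lin_zero (8 * R i2 i0 i2 q - 2 * R i1 i0 i1 q)
      (4 * R i2 q i2 q + 4 * d1 - R i1 q i1 q - 4 * d2)
      (8 * R i2 i0 i2 q * d1 - 2 * R i1 i0 i1 q * d2)
      (4 * R i2 q i2 q * d1 - R i1 q i1 q * d2) (fun t => by
        have := h t
        nlinarith [this])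
    linarith
  refine ⟨hrb, ?_, ?_, main⟩
  · have h1 := main i1 hF.d01.symm
    have h2 : R i1 i0 i1 i1 = 0 := by
      have := hc.a34 i1 i0 i1 i1
      linarith
    rw [h2] at h1
    linarith
  · have h1 := main i2 hF.d02.symm
    have h2 : R i2 i0 i2 i2 = 0 := by
      have := hc.a34 i2 i0 i2 i2
      linarith
    rw [h1, h2]
    ring

end Pool.Agent.Helper88.FLG
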